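import Mathlib
import Pool.Agent.Lib.MP_4223bd_al.E8
import Pool.Agent.Lib.MP_4223bd_al.RankTwo

set_option autoImplicit false

open Polynomial

namespace Pool.Agent.Results.MP_4223bd_al.Classification

section Defs

variable {ι : Type} [Fintype ι] [DecidableEq ι]

/-- `M` is the Gram matrix of the simple roots of a simple root system of rank `n`, normalised so
that short roots have square length 2: the Cartan matrix `2 (α_i,α_j) / (α_j,α_j)` times the
diagonal matrix of the numbers `d_j = (α_j,α_j) / 2`. -/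
def IsSimpleGram (n : ℕ) (M : Matrix (Fin n) (Fin n) ℤ) : Prop :=
  M = CartanMatrix.A n ∨
    (2 ≤ n ∧ M = CartanMatrix.B n * Matrix.diagonal fun i => if i.val + 1 = n then 1 else 2) ∨
    (2 ≤ n ∧ M = CartanMatrix.C n * Matrix.diagonal fun i => if i.val + 1 = n then 2 else 1) ∨
    (4 ≤ n ∧ M = CartanMatrix.D n) ∨
    (∃ h : n = 6, M = CartanMatrix.E₆.submatrix (Fin.cast h) (Fin.cast h)) ∨
    (∃ h : n = 7, M = CartanMatrix.E₇.submatrix (Fin.cast h) (Fin.cast h)) ∨
    (∃ h : n = 8, M = CartanMatrix.E₈.submatrix (Fin.cast h) (Fin.cast h)) ∨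
    (∃ h : n = 4, M = (CartanMatrix.F₄ * Matrix.diagonal ![2, 2, 1, 1]).submatrix
      (Fin.cast h) (Fin.cast h)) ∨
    (∃ h : n = 2, M = (CartanMatrix.G₂ * Matrix.diagonal ![3, 1]).submatrix
      (Fin.cast h) (Fin.cast h))

/-- `G` is, after renumbering the simple roots, a block diagonal sum of such matrices: the Gram
matrix of the simple roots of a split semisimple Lie algebra. -/
def IsGram (G : Matrix ι ι ℤ) : Prop :=
  ∃ (r : ℕ) (n : Fin r → ℕ) (M : ∀ s, Matrix (Fin (n s)) (Fin (n s)) ℤ)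
    (e : ι ≃ Σ s : Fin r, Fin (n s)),
    (∀ s, IsSimpleGram (n s) (M s)) ∧ ∀ i j, G i j = Matrix.blockDiagonal' M (e i) (e j)

/-- For `a` in the positive cone (given by its coefficients on the simple roots),
the number (a,a)/2. -/
def halfNorm (G : Matrix ι ι ℤ) (a : ι → ℕ) : ℕ :=
  ((∑ i, ∑ j, (a i : ℤ) * G i j * (a j : ℤ)) / 2).toNat

/-- (q)_a = ∏_i ∏_{j=1}^{a_i} (1 - q^{d_i j}) with d_i = (α_i,α_i)/2. -/
noncomputable def qPoch (G : Matrix ι ι ℤ) (a : ι → ℕ) : RatFunc ℚ :=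
  ∏ i, ∏ j ∈ Finset.Icc 1 (a i), (1 - RatFunc.X ^ ((G i i / 2).toNat * j))

/-- `J` is the family of rational functions of the problem: `J 0 = 1` and
`J a = ∑_{0 ≤ c ≤ a} q^{(c,c)/2} / (q)_{a-c} * J c`. -/
def IsJ (G : Matrix ι ι ℤ) (J : (ι → ℕ) → RatFunc ℚ) : Prop :=
  J 0 = 1 ∧
    ∀ a, J a = ∑ c ∈ Finset.Iic a, RatFunc.X ^ halfNorm G c / qPoch G (a - c) * J c

/-- The polynomial `p`, with natural number coefficients, is the numerator `(q)_a^2 J_a`. -/
def IsNum (G : Matrix ι ι ℤ) (J : (ι → ℕ) → RatFunc ℚ) (a : ι → ℕ) (p : ℕ[X]) : Prop :=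
  algebraMap ℚ[X] (RatFunc ℚ) (p.map (Nat.castRingHom ℚ)) = qPoch G a ^ 2 * J a

/-- The coefficient sequence `c_0, ..., c_D` increases weakly up to some index `m`
and decreases weakly afterwards. -/
def Unimodal (p : ℕ[X]) : Prop :=
  ∃ m ≤ p.natDegree, (∀ k < m, p.coeff k ≤ p.coeff (k + 1)) ∧
    ∀ k, m ≤ k → k < p.natDegree → p.coeff (k + 1) ≤ p.coeff k

end Defs

open Pool.Agent.Lib.MP_4223bd_al

variable {ι : Type} [Fintype ι] [DecidableEq ι]

lemma good_X : Good (RatFunc.X : RatFunc ℚ) := by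
  refine ⟨RatFunc.X_ne_zero, fun k h => ?_⟩
  have h1 : (algebraMap ℚ[X] (RatFunc ℚ)) (1 - X ^ (k + 1)) = 0 := by
    simpa using h
  have h2 : (1 - X ^ (k + 1) : ℚ[X]) = 0 := (RatFunc.algebraMap_injective ℚ) (by simpa using h1)
  have h3 := congrArg (fun p : ℚ[X] => p.coeff 0) h2
  simp at h3

lemma prod_Icc_eq (d x : ℕ) :
    ∏ j ∈ Finset.Icc 1 x, (1 - (RatFunc.X : RatFunc ℚ) ^ (d * j)) = pq (RatFunc.X ^ d) x := by
  rw [pq, ← Finset.Ico_add_one_right_eq_Icc, Finset.prod_Ico_eq_prod_range]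
  simp [add_comm, pow_mul]

omit [DecidableEq ι] in
lemma qPoch_eq {G : Matrix ι ι ℤ} (hG : ∀ i, G i i = 2) (a : ι → ℕ) :
    qPoch G a = poch RatFunc.X a := by
  refine Finset.prod_congr rfl fun i _ => ?_
  rw [hG i, prod_Icc_eq]
  simp

lemma ev_inj : Function.Injective (ev (RatFunc.X : RatFunc ℚ)) := by
  have : ev (RatFunc.X : RatFunc ℚ) =
      (algebraMap ℚ[X] (RatFunc ℚ)).comp (mapRingHom (Int.castRingHom ℚ)) :=
    Polynomial.ringHom_ext' (Subsingleton.elim _ _) (by simp)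
  rw [this, RingHom.coe_comp]
  exact (RatFunc.algebraMap_injective ℚ).comp (map_injective _ Int.cast_injective)

lemma ev_eq (p : ℕ[X]) : ev (RatFunc.X : RatFunc ℚ) (p.map (Nat.castRingHom ℤ)) =
    algebraMap ℚ[X] (RatFunc ℚ) (p.map (Nat.castRingHom ℚ)) := by
  have : (ev (RatFunc.X : RatFunc ℚ)).comp (mapRingHom (Nat.castRingHom ℤ)) =
      (algebraMap ℚ[X] (RatFunc ℚ)).comp (mapRingHom (Nat.castRingHom ℚ)) :=
    Polynomial.ringHom_ext' (Subsingleton.elim _ _) (by simp)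
  exact RingHom.congr_fun this p

/-! The simply-laced case. -/

lemma isJ_iff {A : Matrix ι ι ℤ} (hA : ∀ i, A i i = 2) {h : (ι → ℕ) → ℤ}
    (h1 : ∀ a, QF A a = 2 * h a) (h2 : ∀ a, a ≠ 0 → 0 < h a) (J : (ι → ℕ) → RatFunc ℚ) :
    IsJ A J ↔ IsSol RatFunc.X h J := by
  have e : ∀ c, (RatFunc.X : RatFunc ℚ) ^ halfNorm A c = RatFunc.X ^ h c := by
    intro c
    have h0 : 0 ≤ h c := by
      by_cases hc : c = 0
      · have := h1 c
        rw [hc] at this ⊢
        simp only [QF, Pi.zero_apply, Nat.cast_zero, mul_zero, Finset.sum_const_zero] at this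
        omega
      · exact (h2 c hc).le
    have h3 := h1 c
    rw [QF] at h3
    rw [← zpow_natCast, halfNorm, h3, Int.mul_ediv_cancel_left _ two_ne_zero,
      Int.toNat_of_nonneg h0]
  simp only [IsJ, IsSol, e, qPoch_eq hA]

lemma unimodal_of_nice {A : Matrix ι ι ℤ} (hA : ∀ i, A i i = 2)
    (hN : Nice (RatFunc.X : RatFunc ℚ) A) {J : (ι → ℕ) → RatFunc ℚ} (hJ : IsJ A J) (a : ι → ℕ) :
    ∃ p, IsNum A J a p ∧ Unimodal p := by
  obtain ⟨h, h1, h2, J', hJ', h3⟩ := hN
  obtain ⟨c, p, hp, hpe⟩ := h3 a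
  obtain ⟨c0, c1, c2⟩ := SU_coeff hp
  have hl : p ∈ lifts (Nat.castRingHom ℤ) := by
    rw [lifts_iff_coeff_lifts]
    exact fun k => ⟨(p.coeff k).toNat, Int.toNat_of_nonneg (c0 k)⟩
  obtain ⟨p', rfl⟩ := (mem_lifts _).mp hl
  refine ⟨p', ?_, min (c.toNat / 2) p'.natDegree, min_le_right _ _, fun k hk => ?_,
    fun k hk hk' => ?_⟩
  · rw [IsNum, ← ev_eq, hpe, qPoch_eq hA,
      sol_unique good_X h2 ((isJ_iff hA h1 h2 J).mp hJ) hJ' a]
  · have := c1 k (by omega)
    simpa [coeff_map] using this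
  · have := c2 k (by omega)
    simpa [coeff_map] using this

/-! Two simple roots of different lengths. -/

def Pair {κ : Type} (G : Matrix κ κ ℤ) (u v : κ) (m : ℤ) : Prop :=
  u ≠ v ∧ G u u = 2 ∧ G u v = -m ∧ G v u = -m ∧ G v v = 2 * m

def vec (u v : ι) (x y : ℕ) : ι → ℕ := fun k => if k = u then x else if k = v then y else 0

omit [Fintype ι] in
lemma vec_fst (u v : ι) (x y : ℕ) : vec u v x y u = x := by simp [vec]

omit [Fintype ι] in
lemma vec_snd {u v : ι} (h : u ≠ v) (x y : ℕ) : vec u v x y v = y := by simp [vec, h.symm]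

omit [Fintype ι] in
lemma vec_out {u v k : ι} (h1 : k ≠ u) (h2 : k ≠ v) (x y : ℕ) : vec u v x y k = 0 := by
  simp [vec, h1, h2]

omit [Fintype ι] in
lemma vec_sub (u v : ι) (x y x' y' : ℕ) :
    vec u v x y - vec u v x' y' = vec u v (x - x') (y - y') := by
  funext k
  simp only [vec, Pi.sub_apply]
  split_ifs <;> rfl

lemma sum_Iic {u v : ι} (h : u ≠ v) (x y : ℕ) (f : (ι → ℕ) → RatFunc ℚ) :
    ∑ c ∈ Finset.Iic (vec u v x y), f c =
      ∑ s ∈ Finset.range (x + 1), ∑ t ∈ Finset.range (y + 1), f (vec u v s t) := by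
  rw [← Finset.sum_product']
  symm
  apply Finset.sum_bij (fun p _ => vec u v p.1 p.2)
  · rintro ⟨s, t⟩ hp
    simp only [Finset.mem_product, Finset.mem_range] at hp
    rw [Finset.mem_Iic]
    intro k
    simp only [vec]
    split_ifs <;> omega
  · rintro ⟨s, t⟩ _ ⟨s', t'⟩ _ hp
    have h0 := congrFun hp u
    have h1 := congrFun hp v
    simp only [vec_fst, vec_snd h] at h0 h1
    rw [h0, h1]
  · intro c hc
    rw [Finset.mem_Iic] at hc
    have h0 : c u ≤ vec u v x y u := hc u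
    have h1 : c v ≤ vec u v x y v := hc v
    rw [vec_fst] at h0
    rw [vec_snd h] at h1
    refine ⟨(c u, c v), by simp only [Finset.mem_product, Finset.mem_range]; omega, ?_⟩
    funext k
    by_cases k1 : k = u
    · rw [k1, vec_fst]
    · by_cases k2 : k = v
      · rw [k2, vec_snd h]
      · have : c k ≤ vec u v x y k := hc k
        rw [vec_out k1 k2] at this ⊢
        omega
  · intros; rfl

omit [DecidableEq ι] in
lemma sum_two' {u v : ι} (h : u ≠ v) (f : ι → ℤ) (hf : ∀ k, k ≠ u → k ≠ v → f k = 0) :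
    ∑ k, f k = f u + f v :=
  Fintype.sum_eq_add u v h fun k hk => hf k hk.1 hk.2

lemma halfNorm_vec (G : Matrix ι ι ℤ) {u v : ι} (h : u ≠ v) (x y : ℕ) :
    halfNorm G (vec u v x y) =
      (((x : ℤ) * G u u * x + x * G u v * y + (y * G v u * x + y * G v v * y)) / 2).toNat := by
  rw [halfNorm, sum_two' h _ fun k h1 h2 => by simp [vec_out h1 h2],
    sum_two' h _ fun k h1 h2 => by simp [vec_out h1 h2],
    sum_two' h _ fun k h1 h2 => by simp [vec_out h1 h2], vec_fst, vec_snd h]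

lemma qPoch_vec (G : Matrix ι ι ℤ) {u v : ι} (h : u ≠ v) (x y : ℕ) :
    qPoch G (vec u v x y) =
      pq (RatFunc.X ^ (G u u / 2).toNat) x * pq (RatFunc.X ^ (G v v / 2).toNat) y := by
  rw [qPoch, Fintype.prod_eq_mul u v h fun k hk => by simp [vec_out hk.1 hk.2], vec_fst,
    vec_snd h, prod_Icc_eq, prod_Icc_eq]

lemma not_unimodal {p : ℕ[X]} {i j : ℕ} (hij : i ≤ j) (h1 : p.coeff (i + 1) < p.coeff i)
    (h2 : p.coeff j < p.coeff (j + 1)) : ¬Unimodal p := by
  rintro ⟨m, -, m1, m2⟩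
  have hd : j + 1 ≤ p.natDegree := le_natDegree_of_ne_zero (by omega)
  by_cases hm : i < m
  · have := m1 i hm
    omega
  · have := m2 j (by omega) (by omega)
    omega

lemma rec2_of {G : Matrix ι ι ℤ} {u v : ι} (h : u ≠ v) {J : (ι → ℕ) → RatFunc ℚ} (hJ : IsJ G J) :
    Rec2 (RatFunc.X ^ 1) (RatFunc.X ^ (G v v / 2).toNat) (fun x y => halfNorm G (vec u v x y))
      (fun x y => J (vec u v x y)) ∨ G u u ≠ 2 := by
  by_cases hu : G u u = 2
  · left
    refine ⟨?_, fun x y => ?_⟩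
    · have : vec u v 0 0 = 0 := by funext k; simp [vec]
      simp only [this, hJ.1]
    · beta_reduce
      rw [hJ.2, sum_Iic h]
      simp only [vec_sub, qPoch_vec G h, hu, pow_one]
      simp
  · exact Or.inr hu

noncomputable def pB : ℕ[X] :=
  1 + X + 3 * X ^ 2 + 2 * X ^ 3 + 5 * X ^ 4 + 2 * X ^ 5 + 3 * X ^ 6 + X ^ 7 + X ^ 8

noncomputable def pG : ℕ[X] :=
  1 + 2 * X + 5 * X ^ 2 + 11 * X ^ 3 + 16 * X ^ 4 + 24 * X ^ 5 + 39 * X ^ 6 + 46 * X ^ 7 +
    60 * X ^ 8 + 84 * X ^ 9 + 88 * X ^ 10 + 99 * X ^ 11 + 119 * X ^ 12 + 110 * X ^ 13 +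
    110 * X ^ 14 + 119 * X ^ 15 + 99 * X ^ 16 + 88 * X ^ 17 + 84 * X ^ 18 + 60 * X ^ 19 +
    46 * X ^ 20 + 39 * X ^ 21 + 24 * X ^ 22 + 16 * X ^ 23 + 11 * X ^ 24 + 5 * X ^ 25 +
    2 * X ^ 26 + X ^ 27

lemma bad_B {G : Matrix ι ι ℤ} {u v : ι} (h : Pair G u v 2) {J : (ι → ℕ) → RatFunc ℚ}
    (hJ : IsJ G J) : IsNum G J (vec u v 2 2) pB ∧ ¬Unimodal pB := by
  obtain ⟨h0, h1, h2, h3, h4⟩ := h
  constructor
  · have r := (rec2_of h0 hJ).resolve_right (by simp [h1])
    have e : (fun x y => halfNorm G (vec u v x y)) = hTwoB := by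
      funext x y
      rw [halfNorm_vec G h0, h1, h2, h3, h4, hTwoB]
      norm_num
    have e2 : (G v v / 2).toNat = 2 := by rw [h4]; rfl
    have e1 : (G u u / 2).toNat = 1 := by rw [h1]; rfl
    rw [e, e2, pow_one] at r
    have := numB good_X (recN_of good_X (good_pow good_X 1) r)
    rw [IsNum, qPoch_vec G h0, e1, e2, pow_one, this, pB]
    simp [map_ofNat]
  · refine not_unimodal (i := 2) (j := 3) (by norm_num) ?_ ?_ <;>
      simp [pB, coeff_X, coeff_one, coeff_X_pow]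

lemma bad_G {G : Matrix ι ι ℤ} {u v : ι} (h : Pair G u v 3) {J : (ι → ℕ) → RatFunc ℚ}
    (hJ : IsJ G J) : IsNum G J (vec u v 3 3) pG ∧ ¬Unimodal pG := by
  obtain ⟨h0, h1, h2, h3, h4⟩ := h
  constructor
  · have r := (rec2_of h0 hJ).resolve_right (by simp [h1])
    have e : (fun x y => halfNorm G (vec u v x y)) = hTwoG := by
      funext x y
      rw [halfNorm_vec G h0, h1, h2, h3, h4, hTwoG]
      norm_num
    have e2 : (G v v / 2).toNat = 3 := by rw [h4]; rfl
    have e1 : (G u u / 2).toNat = 1 := by rw [h1]; rfl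
    rw [e, e2, pow_one] at r
    have := numG good_X (recN_of good_X (good_pow good_X 2) r)
    rw [IsNum, qPoch_vec G h0, e1, e2, pow_one, this, pG]
    simp [map_ofNat]
  · refine not_unimodal (i := 12) (j := 14) (by norm_num) ?_ ?_ <;>
      simp [pG, coeff_X, coeff_one, coeff_X_pow]

lemma simple_cases {n : ℕ} {M : Matrix (Fin n) (Fin n) ℤ} (h : IsSimpleGram n M) :
    (Nice (RatFunc.X : RatFunc ℚ) M ∧ ∀ i, M i i = 2) ∨
      ∃ u v, Pair M u v 2 ∨ Pair M u v 3 := by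
  rcases h with rfl | ⟨h1, rfl⟩ | ⟨h1, rfl⟩ | ⟨h1, rfl⟩ | ⟨rfl, rfl⟩ | ⟨rfl, rfl⟩ | ⟨rfl, rfl⟩ |
    ⟨rfl, rfl⟩ | ⟨rfl, rfl⟩
  · exact Or.inl ⟨nice_A good_X _, fun i => by simp [CartanMatrix.A]⟩
  · refine Or.inr ⟨⟨n - 1, by omega⟩, ⟨n - 2, by omega⟩, Or.inl ⟨?_, ?_, ?_, ?_, ?_⟩⟩ <;>
      simp only [Matrix.mul_diagonal, CartanMatrix.B, Matrix.of_apply, Fin.mk.injEq, ne_eq] <;>
      (try split_ifs) <;> omega
  · refine Or.inr ⟨⟨n - 2, by omega⟩, ⟨n - 1, by omega⟩, Or.inl ⟨?_, ?_, ?_, ?_, ?_⟩⟩ <;>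
      simp only [Matrix.mul_diagonal, CartanMatrix.C, Matrix.of_apply, Fin.mk.injEq, ne_eq] <;>
      (try split_ifs) <;> omega
  · exact Or.inl ⟨nice_D good_X _ h1, fun i => by simp⟩
  · exact Or.inl ⟨nice_E6 good_X ev_inj, by decide⟩
  · exact Or.inl ⟨nice_E7 good_X ev_inj, by decide⟩
  · exact Or.inl ⟨nice_E8 good_X ev_inj, by decide⟩
  · refine Or.inr ⟨2, 1, Or.inl ?_⟩
    unfold Pair
    decide
  · refine Or.inr ⟨1, 0, Or.inr ?_⟩
    unfold Pair
    decide

lemma gram_cases {G : Matrix ι ι ℤ} (h : IsGram G) :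
    (Nice (RatFunc.X : RatFunc ℚ) G ∧ ∀ i, G i i = 2) ∨
      ∃ u v, Pair G u v 2 ∨ Pair G u v 3 := by
  obtain ⟨r, n, M, e, hM, he⟩ := h
  by_cases hs : ∀ s, Nice (RatFunc.X : RatFunc ℚ) (M s) ∧ ∀ i, M s i i = 2
  · refine Or.inl ⟨(Nice.sigma good_X M fun s => (hs s).1).embed e.injective he, fun i => ?_⟩
    rw [he]
    rcases e i with ⟨s, k⟩
    rw [Matrix.blockDiagonal'_apply_eq]
    exact (hs s).2 k
  · obtain ⟨s, hs⟩ := not_forall.mp hs
    obtain ⟨u, v, huv⟩ := (simple_cases (hM s)).resolve_left hs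
    have key : ∀ m, Pair (M s) u v m → Pair G (e.symm ⟨s, u⟩) (e.symm ⟨s, v⟩) m := by
      rintro m ⟨h0, h1, h2, h3, h4⟩
      refine ⟨fun h => h0 ?_, ?_, ?_, ?_, ?_⟩
      · simpa using e.symm.injective h
      all_goals simpa only [he, Equiv.apply_symm_apply, Matrix.blockDiagonal'_apply_eq]
    exact Or.inr ⟨_, _, huv.imp (key 2) (key 3)⟩

/-! Existence and uniqueness of the family `J`. -/

def Pos {κ : Type} [Fintype κ] (G : Matrix κ κ ℤ) : Prop := ∀ a : κ → ℕ, a ≠ 0 → 2 ≤ QF G a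

lemma even_sum {κ : Type} [DecidableEq κ] (f : κ → κ → ℤ) (h1 : ∀ i j, f i j = f j i)
    (h2 : ∀ i, Even (f i i)) (s : Finset κ) : Even (∑ i ∈ s, ∑ j ∈ s, f i j) := by
  induction s using Finset.induction_on with
  | empty => simp
  | insert a s ha ih =>
    simp only [Finset.sum_insert ha, Finset.sum_add_distrib]
    have : ∑ i ∈ s, f i a = ∑ i ∈ s, f a i := Finset.sum_congr rfl fun i _ => h1 i a
    rw [this]
    obtain ⟨x, hx⟩ := h2 a
    obtain ⟨y, hy⟩ := ih
    exact ⟨x + y + ∑ i ∈ s, f a i, by rw [hx, hy]; ring⟩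

lemma pos_of_vec {κ : Type} [Fintype κ] [DecidableEq κ] {G : Matrix κ κ ℤ}
    (h1 : ∀ i j, G i j = G j i) (h2 : ∀ i, Even (G i i)) (h3 : ∀ i j, i ≠ j → G i j ≤ 0)
    (w : κ → ℤ) (h4 : ∀ i, 0 < w i) (h5 : ∀ i, 0 < ∑ j, G i j * w j) : Pos G := by
  intro a ha
  have hev : Even (QF G a) :=
    even_sum (fun i j => (a i : ℤ) * G i j * a j) (fun i j => by rw [h1 i j]; ring)
      (fun i => ((h2 i).mul_left _).mul_right _) _
  suffices h : (0 : ℚ) < (QF G a : ℤ) by
    have h' : 0 < QF G a := by exact_mod_cast h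
    obtain ⟨x, hx⟩ := hev
    omega
  have hw : ∀ i, (0 : ℚ) < w i := fun i => by exact_mod_cast h4 i
  have e1 : ∑ i, ∑ j, ((G i j : ℚ) * ((a j : ℚ) ^ 2 * w i / w j)) =
      ∑ i, ∑ j, ((G i j : ℚ) * ((a i : ℚ) ^ 2 * w j / w i)) := by
    rw [Finset.sum_comm]
    exact Finset.sum_congr rfl fun i _ => Finset.sum_congr rfl fun j _ => by rw [h1 j i]
  have e2 : (0 : ℚ) < ∑ i, ∑ j, ((G i j : ℚ) * ((a i : ℚ) ^ 2 * w j / w i)) := by
    have e : ∀ i, ∑ j, ((G i j : ℚ) * ((a i : ℚ) ^ 2 * w j / w i)) =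
        (a i : ℚ) ^ 2 / w i * ((∑ j, G i j * w j : ℤ) : ℚ) := by
      intro i
      push_cast
      rw [Finset.mul_sum]
      exact Finset.sum_congr rfl fun j _ => by ring
    simp only [e]
    have h6 : ∀ i, (0 : ℚ) < ((∑ j, G i j * w j : ℤ) : ℚ) := fun i => by exact_mod_cast h5 i
    obtain ⟨i, hi⟩ := Function.ne_iff.mp ha
    refine Finset.sum_pos' (fun k _ => mul_nonneg (div_nonneg (sq_nonneg _) (hw k).le) (h6 k).le)
      ⟨i, Finset.mem_univ _, mul_pos (div_pos (pow_pos ?_ 2) (hw i)) (h6 i)⟩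
    exact_mod_cast Nat.pos_of_ne_zero hi
  have e3 : ∑ i, ∑ j, ((G i j : ℚ) * ((a j : ℚ) ^ 2 * w i / w j)) +
      ∑ i, ∑ j, ((G i j : ℚ) * ((a i : ℚ) ^ 2 * w j / w i)) ≤ 2 * ((QF G a : ℤ) : ℚ) := by
    rw [QF, ← Finset.sum_add_distrib]
    push_cast
    rw [Finset.mul_sum]
    refine Finset.sum_le_sum fun i _ => ?_
    rw [← Finset.sum_add_distrib, Finset.mul_sum]
    refine Finset.sum_le_sum fun j _ => ?_
    have hi := hw i
    have hj := hw j
    by_cases hij : i = j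
    · subst hij
      apply le_of_eq
      field_simp
      ring
    · have hg : (G i j : ℚ) ≤ 0 := by exact_mod_cast h3 i j hij
      have : (G i j : ℚ) * ((a j : ℚ) ^ 2 * w i / w j) + G i j * ((a i : ℚ) ^ 2 * w j / w i) -
          2 * (a i * G i j * a j) = G i j * ((a j * w i - a i * w j) ^ 2 / (w i * w j)) := by
        field_simp
        ring
      have h7 : (G i j : ℚ) * ((a j * w i - a i * w j) ^ 2 / (w i * w j)) ≤ 0 :=
        mul_nonpos_of_nonpos_of_nonneg hg (by positivity)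
      linarith
  linarith

lemma sum_tri {n : ℕ} (i : Fin n) (x y z : ℤ) (w : ℕ → ℤ) (f : Fin n → ℤ)
    (hf : ∀ j : Fin n, f j = (if j.val = i.val then x * w j else 0) +
      (if j.val + 1 = i.val then y * w j else 0) + (if j.val = i.val + 1 then z * w j else 0)) :
    ∑ j, f j = x * w i + (if 0 < i.val then y * w (i.val - 1) else 0) +
      (if i.val + 1 < n then z * w (i.val + 1) else 0) := by
  have hi := i.2
  simp only [hf, Finset.sum_add_distrib]
  congr 1
  congr 1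
  · rw [Finset.sum_eq_single i (fun j _ hj => if_neg fun h => hj (Fin.ext h)) (by simp), if_pos rfl]
  · split_ifs with h
    · rw [Finset.sum_eq_single (⟨i.val - 1, by omega⟩ : Fin n)
        (fun j _ hj => if_neg fun h => hj (Fin.ext (by simp only; omega))) (by simp),
        if_pos (by simp only; omega)]
    · exact Finset.sum_eq_zero fun j _ => if_neg (by omega)
  · split_ifs with h
    · rw [Finset.sum_eq_single (⟨i.val + 1, h⟩ : Fin n)
        (fun j _ hj => if_neg fun h => hj (Fin.ext h)) (by simp), if_pos rfl]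
    · exact Finset.sum_eq_zero fun j _ => if_neg (by have := j.2; omega)

lemma pos_nice {κ : Type} [Fintype κ] [DecidableEq κ] {M : Matrix κ κ ℤ}
    (h : Nice (RatFunc.X : RatFunc ℚ) M) : Pos M := by
  obtain ⟨h, h1, h2, -⟩ := h
  intro a ha
  have := h2 a ha
  rw [h1]
  omega

lemma pos_B (n : ℕ) :
    Pos (CartanMatrix.B n * Matrix.diagonal fun i => if i.val + 1 = n then 1 else 2) := by
  refine pos_of_vec (fun i j => ?_) (fun i => ?_) (fun i j h => ?_)
    (fun i => ((i.val : ℤ) + 1) * (2 * n - i.val)) (fun i => ?_) (fun i => ?_)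
  · have := i.2
    have := j.2
    simp only [Matrix.mul_diagonal, CartanMatrix.B, Matrix.of_apply, Fin.ext_iff]
    split_ifs <;> omega
  · rw [Matrix.mul_diagonal, CartanMatrix.B_diag]
    exact even_two_mul _
  · simp only [Matrix.mul_diagonal, CartanMatrix.B, Matrix.of_apply, if_neg h]
    split_ifs <;> omega
  · have := i.2
    exact mul_pos (by omega) (by omega)
  · have hi := i.2
    rw [sum_tri i (if i.val + 1 = n then 2 else 4) (-2) (-2)
      (fun k => ((k : ℤ) + 1) * (2 * n - k)) _ fun j => by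
        have := j.2
        simp only [Matrix.mul_diagonal, CartanMatrix.B, Matrix.of_apply, Fin.ext_iff]
        split_ifs <;> omega]
    obtain ⟨i, hi'⟩ := i
    simp only at hi ⊢
    rcases i with _ | i
    · split_ifs <;> omega
    · obtain ⟨k, rfl⟩ : ∃ k, n = i + 2 + k := ⟨n - (i + 2), by omega⟩
      simp only [Nat.add_sub_cancel]
      split_ifs <;> first | omega | (push_cast; nlinarith)

lemma pos_C (n : ℕ) :
    Pos (CartanMatrix.C n * Matrix.diagonal fun i => if i.val + 1 = n then 2 else 1) := by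
  intro a ha
  have key : ∀ b : Fin n → ℕ,
      QF (CartanMatrix.B n * Matrix.diagonal fun i => if i.val + 1 = n then 1 else 2)
        (fun i => (if i.val + 1 = n then 2 else 1) * b i) =
      2 * QF (CartanMatrix.C n * Matrix.diagonal fun i => if i.val + 1 = n then 2 else 1) b := by
    intro b
    simp only [QF, Finset.mul_sum]
    refine Finset.sum_congr rfl fun i _ => Finset.sum_congr rfl fun j _ => ?_
    have := i.2
    have := j.2
    simp only [Matrix.mul_diagonal, CartanMatrix.B, CartanMatrix.C, Matrix.of_apply, Fin.ext_iff]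
    split_ifs <;> first | omega | (push_cast; ring)
  have h1 := pos_B n (fun i => (if i.val + 1 = n then 2 else 1) * a i) (by
    intro h
    apply ha
    funext i
    have := congrFun h i
    simp only [Pi.zero_apply] at this ⊢
    split_ifs at this <;> omega)
  have h2 : Even (QF (CartanMatrix.C n * Matrix.diagonal fun i => if i.val + 1 = n then 2 else 1)
      a) := by
    refine even_sum (fun i j => (a i : ℤ) * _ * a j) (fun i j => ?_)
      (fun i => (Even.mul_left (by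
        rw [Matrix.mul_diagonal, CartanMatrix.C_diag]; exact even_two_mul _) _).mul_right _) _
    have := i.2
    have := j.2
    simp only [Matrix.mul_diagonal, CartanMatrix.C, Matrix.of_apply, Fin.ext_iff]
    split_ifs <;> first | omega | ring
  rw [key] at h1
  obtain ⟨x, hx⟩ := h2
  omega

lemma pos_simple {n : ℕ} {M : Matrix (Fin n) (Fin n) ℤ} (h : IsSimpleGram n M) : Pos M := by
  rcases h with rfl | ⟨h1, rfl⟩ | ⟨h1, rfl⟩ | ⟨h1, rfl⟩ | ⟨rfl, rfl⟩ | ⟨rfl, rfl⟩ | ⟨rfl, rfl⟩ |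
    ⟨rfl, rfl⟩ | ⟨rfl, rfl⟩
  · exact pos_nice (nice_A good_X _)
  · exact pos_B n
  · exact pos_C n
  · exact pos_nice (nice_D good_X _ h1)
  · exact pos_nice (nice_E6 good_X ev_inj)
  · exact pos_nice (nice_E7 good_X ev_inj)
  · exact pos_nice (nice_E8 good_X ev_inj)
  · exact pos_of_vec (by decide) (by decide) (by decide) ![8, 15, 21, 11] (by decide) (by decide)
  · exact pos_of_vec (by decide) (by decide) (by decide) ![3, 5] (by decide) (by decide)

omit [DecidableEq ι] in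
lemma halfNorm_ne {G : Matrix ι ι ℤ} (h : IsGram G) {a : ι → ℕ} (ha : a ≠ 0) :
    halfNorm G a ≠ 0 := by
  obtain ⟨r, n, M, e, hM, he⟩ := h
  have e1 : ∑ i, ∑ j, (a i : ℤ) * G i j * (a j : ℤ) =
      ∑ s, QF (M s) fun k => a (e.symm ⟨s, k⟩) := by
    rw [← e.symm.sum_comp, Fintype.sum_sigma]
    refine Finset.sum_congr rfl fun s _ => ?_
    rw [QF]
    refine Finset.sum_congr rfl fun i _ => ?_
    rw [← e.symm.sum_comp, Fintype.sum_sigma, Finset.sum_eq_single s]
    · simp only [he, Equiv.apply_symm_apply, Matrix.blockDiagonal'_apply_eq]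
    · intro t _ ht
      simp [he, Matrix.blockDiagonal'_apply_ne _ _ _ ht.symm]
    · simp
  obtain ⟨i, hi⟩ := Function.ne_iff.mp ha
  have hnn : ∀ s, 0 ≤ QF (M s) fun k => a (e.symm ⟨s, k⟩) := by
    intro s
    by_cases h0 : (fun k => a (e.symm ⟨s, k⟩)) = 0
    · rw [h0]; simp [QF]
    · have := pos_simple (hM s) _ h0
      omega
  have h2 : 2 ≤ QF (M (e i).1) fun k => a (e.symm ⟨(e i).1, k⟩) :=
    pos_simple (hM _) _ fun h0 => hi (by simpa using congrFun h0 (e i).2)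
  have h3 := Finset.single_le_sum (f := fun s => QF (M s) fun k => a (e.symm ⟨s, k⟩))
    (fun s _ => hnn s) (Finset.mem_univ (e i).1)
  rw [halfNorm, e1]
  beta_reduce at h3
  omega

lemma one_sub_ne' {k : ℕ} (hk : k ≠ 0) : (1 - RatFunc.X ^ k : RatFunc ℚ) ≠ 0 := by
  obtain ⟨k, rfl⟩ := Nat.exists_eq_succ_of_ne_zero hk
  exact good_X.2 k

noncomputable def Jr (G : Matrix ι ι ℤ) (a : ι → ℕ) : RatFunc ℚ :=
  if a = 0 then 1 else
    (∑ c ∈ (Finset.Iio a).attach, RatFunc.X ^ halfNorm G c.1 / qPoch G (a - c.1) * Jr G c.1) /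
      (1 - RatFunc.X ^ halfNorm G a)
termination_by ∑ i, a i
decreasing_by
  have h := Finset.mem_Iio.mp c.2
  obtain ⟨h1, i, hi⟩ := Pi.lt_def.mp h
  exact Finset.sum_lt_sum (fun j _ => h1 j) ⟨i, Finset.mem_univ _, hi⟩

/-- The family `J` exists and is unique, so the theorem below is not vacuous. -/
lemma existsUnique_J {G : Matrix ι ι ℤ} (h : IsGram G) : ∃! J, IsJ G J := by
  have hq : qPoch G 0 = 1 := by simp [qPoch]
  have hex : IsJ G (Jr G) := by
    refine ⟨by rw [Jr]; simp, fun a => ?_⟩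
    by_cases ha : a = 0
    · subst ha
      have : Finset.Iic (0 : ι → ℕ) = {0} := by
        ext c; simp
      rw [this]
      simp [hq, halfNorm]
    · rw [← Finset.Iio_insert, Finset.sum_insert (by simp)]
      have hne := one_sub_ne' (halfNorm_ne h ha)
      have e : Jr G a * (1 - RatFunc.X ^ halfNorm G a) =
          ∑ c ∈ Finset.Iio a, RatFunc.X ^ halfNorm G c / qPoch G (a - c) * Jr G c := by
        conv_lhs => rw [Jr]
        rw [if_neg ha, div_mul_cancel₀ _ hne]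
        exact Finset.sum_attach (Finset.Iio a)
          (fun c => RatFunc.X ^ halfNorm G c / qPoch G (a - c) * Jr G c)
      rw [← e, tsub_self, hq]
      ring
  refine ⟨Jr G, hex, fun J hJ => funext fun a => ?_⟩
  induction' hn : ∑ i, a i using Nat.strong_induction_on with n ih generalizing a
  by_cases ha : a = 0
  · rw [ha, hJ.1, hex.1]
  have e : ∑ c ∈ Finset.Iio a, RatFunc.X ^ halfNorm G c / qPoch G (a - c) * J c =
      ∑ c ∈ Finset.Iio a, RatFunc.X ^ halfNorm G c / qPoch G (a - c) * Jr G c := by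
    refine Finset.sum_congr rfl fun c hc => ?_
    obtain ⟨h1, i, hi⟩ := Pi.lt_def.mp (Finset.mem_Iio.mp hc)
    rw [ih _ (hn ▸ Finset.sum_lt_sum (fun j _ => h1 j) ⟨i, Finset.mem_univ _, hi⟩) c rfl]
  have f1 := hJ.2 a
  have f2 := hex.2 a
  rw [← Finset.Iio_insert, Finset.sum_insert (by simp), tsub_self, hq] at f1 f2
  apply mul_left_cancel₀ (one_sub_ne' (halfNorm_ne h ha))
  linear_combination f1 - f2 + e

omit [DecidableEq ι] in
lemma isNum_unique {G : Matrix ι ι ℤ} {J : (ι → ℕ) → RatFunc ℚ} {a : ι → ℕ} {p p' : ℕ[X]}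
    (h : IsNum G J a p) (h' : IsNum G J a p') : p = p' :=
  map_injective (Nat.castRingHom ℚ) Nat.cast_injective
    (RatFunc.algebraMap_injective ℚ (h.trans h'.symm))

/-- The question has a positive answer for a split semisimple Lie algebra exactly when it is
simply-laced. The following are equivalent: all simple roots have square length 2; every numerator
is a unimodal polynomial with natural number coefficients; every numerator that is a polynomial
with natural number coefficients is unimodal. The family `J` exists by `existsUnique_J`. -/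
theorem result {ι : Type} [Fintype ι] [DecidableEq ι] (G : Matrix ι ι ℤ) (hG : IsGram G)
    (J : (ι → ℕ) → RatFunc ℚ) (hJ : IsJ G J) :
    List.TFAE [∀ i, G i i = 2, ∀ a, ∃ p, IsNum G J a p ∧ Unimodal p,
      ∀ a p, IsNum G J a p → Unimodal p] := by
  tfae_have 1 → 2 := by
    intro h a
    rcases gram_cases hG with ⟨h1, -⟩ | ⟨u, v, h1 | h1⟩
    · exact unimodal_of_nice h h1 hJ a
    · have := h1.2.2.2.2
      rw [h v] at this
      omega
    · have := h1.2.2.2.2
      rw [h v] at this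
      omega
  tfae_have 2 → 3 := by
    intro h a p hp
    obtain ⟨p', h1, h2⟩ := h a
    rwa [isNum_unique hp h1]
  tfae_have 3 → 1 := by
    intro h
    rcases gram_cases hG with ⟨-, h1⟩ | ⟨u, v, h1 | h1⟩
    · exact h1
    · exact absurd (h _ _ (bad_B h1 hJ).1) (bad_B h1 hJ).2
    · exact absurd (h _ _ (bad_G h1 hJ).1) (bad_G h1 hJ).2
  tfae_finish

end Pool.Agent.Results.MP_4223bd_al.Classification
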