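import Pool.Agent.FS.TodaBC.Giv

set_option autoImplicit false

open Polynomial

namespace Pool.Agent.Results.MP_4223bd_al.FormulaBC

/-- The Gaussian binomial coefficient `[n, k]_q` as a polynomial with natural number
coefficients, given by the Pascal rule; it is `0` for `k > n`. -/
noncomputable def gauss : ℕ → ℕ → ℕ[X]
  | _, 0 => 1
  | 0, _ + 1 => 0
  | n + 1, k + 1 => gauss n k + X ^ (k + 1) * gauss n (k + 1)

/-- `[n, n - k] = [n, k]` in base `q ^ d` for integers `n, k`; it is `0` unless `0 ≤ k ≤ n`. -/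
noncomputable def binom (d : ℕ) (n k : ℤ) : ℕ[X] :=
  if 0 ≤ k ∧ k ≤ n then Polynomial.expand ℕ d (gauss n.toNat (n - k).toNat) else 0

variable {m : ℕ}

/-- The vector `(r a₀, a₁, …, a_m)`. -/
def tau (r : ℕ) (a : Fin (m + 1) → ℕ) : Fin (m + 1) → ℤ :=
  Fin.cons ((r : ℤ) * a 0) fun j => (a j.succ : ℤ)

/-- `(a,a)/2` for the chain `α₀, …, α_m` with `d₀ = d`, `d_j = e` for `j ≥ 1`,
`(α₀,α₁) = -e r` and `(α_j,α_{j+1}) = -e` for `j ≥ 1`. -/
def halfNorm (d e r : ℕ) (a : Fin (m + 1) → ℕ) : ℕ :=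
  ((d : ℤ) * (a 0 * a 0) +
    e * ∑ j : Fin m, ((a j.succ : ℤ) * a j.succ - tau r a j.castSucc * a j.succ)).toNat

/-- `(q)_a`. -/
noncomputable def qPoch (d e : ℕ) (a : Fin (m + 1) → ℕ) : RatFunc ℚ :=
  (∏ k ∈ Finset.Icc 1 (a 0), (1 - RatFunc.X ^ (d * k))) *
    ∏ j : Fin m, ∏ k ∈ Finset.Icc 1 (a j.succ), (1 - RatFunc.X ^ (e * k))

/-- The product of Gaussian binomial coefficients attached to a pair of vectors. -/
noncomputable def coef (d e r : ℕ) (a b : Fin (m + 1) → ℕ) : ℕ[X] :=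
  binom d (a 0) (b 0) ^ 2 *
    (∏ j : Fin m, binom e (tau r a j.castSucc + a j.succ - (tau r b j.castSucc + b j.succ))
      (tau r a j.castSucc - b j.succ)) * (∏ j : Fin m, binom e (a j.succ) (b j.succ)) ^ 2

/-- The polynomials defined by recursion on the rank: a sum over triangular arrays. -/
noncomputable def num (d e r : ℕ) : (m : ℕ) → (Fin (m + 1) → ℕ) → ℕ[X]
  | 0, _ => 1
  | m + 1, a => ∑ b ∈ Finset.Iic (Fin.init a),
      X ^ halfNorm d e r b * coef d e r a (Fin.snoc (α := fun _ => ℕ) b 0) * num d e r m b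

open Pool.Agent.Lib.MP_4223bd_al Pool.Agent.FS.TodaBC

lemma good_X : Good (RatFunc.X : RatFunc ℚ) := by
  refine ⟨RatFunc.X_ne_zero, fun k h => ?_⟩
  have h1 : (algebraMap ℚ[X] (RatFunc ℚ)) (1 - X ^ (k + 1)) = 0 := by
    simpa using h
  have h2 : (1 - X ^ (k + 1) : ℚ[X]) = 0 := (RatFunc.algebraMap_injective ℚ) (by simpa using h1)
  have h3 := congrArg (fun p : ℚ[X] => p.coeff 0) h2
  simp at h3

lemma prod_Icc_eq (d x : ℕ) :
    ∏ j ∈ Finset.Icc 1 x, (1 - (RatFunc.X : RatFunc ℚ) ^ (d * j)) = pq (RatFunc.X ^ d) x := by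
  rw [pq, ← Finset.Ico_add_one_right_eq_Icc, Finset.prod_Ico_eq_prod_range]
  simp [add_comm, pow_mul]

lemma gauss_big (n : ℕ) : ∀ k, n < k → gauss n k = 0 := by
  induction n with
  | zero => intro k hk; obtain ⟨j, rfl⟩ : ∃ j, k = j + 1 := ⟨k - 1, by omega⟩; rfl
  | succ n ih =>
    intro k hk
    obtain ⟨j, rfl⟩ : ∃ j, k = j + 1 := ⟨k - 1, by omega⟩
    rw [show gauss (n + 1) (j + 1) = gauss n j + X ^ (j + 1) * gauss n (j + 1) from rfl,
      ih j (by omega), ih (j + 1) (by omega), mul_zero, add_zero]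

lemma gauss_nil (n : ℕ) : gauss n 0 = 1 := by cases n <;> rfl

lemma gauss_diag (n : ℕ) : gauss n n = 1 := by
  induction n with
  | zero => rfl
  | succ n ih =>
    rw [show gauss (n + 1) (n + 1) = gauss n n + X ^ (n + 1) * gauss n (n + 1) from rfl, ih,
      gauss_big n (n + 1) (by omega), mul_zero, add_zero]

lemma gauss_ev {K : Type*} [Field K] (ψ : ℕ[X] →+* K) (n : ℕ) :
    ∀ k : ℕ, ψ (gauss (n + k) n) = ev (ψ X) (Lib.MP_4223bd_al.gauss n k) := by
  induction n with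
  | zero => intro k; rw [gauss_nil, gauss_zero_left, map_one, map_one]
  | succ n ihn =>
    intro k
    induction k with
    | zero => rw [add_zero, gauss_diag, gauss_zero_right, map_one, map_one]
    | succ k ihk =>
      have h := ihn (k + 1)
      rw [show n + (k + 1) = n + 1 + k by ring] at h
      rw [gauss_succ, map_add, map_mul, map_pow, ev_X, ← ihk, ← h,
        show gauss (n + 1 + (k + 1)) (n + 1) =
          gauss (n + 1 + k) n + X ^ (n + 1) * gauss (n + 1 + k) (n + 1) from rfl,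
        map_add, map_mul, map_pow, add_comm]

lemma binom_ev {K : Type*} [Field K] (φ : ℕ[X] →+* K) (d : ℕ) (n k : ℤ) :
    φ (binom d n k) = ev (φ X ^ d) (gb n k) := by
  rw [binom, gb]
  split_ifs with h
  · have := gauss_ev (φ.comp (Polynomial.expand ℕ d).toRingHom) (n - k).toNat k.toNat
    rw [show (n - k).toNat + k.toNat = n.toNat by omega] at this
    simpa using this
  · rw [map_zero, map_zero]

lemma formula {d e r : ℕ} (φ : ℕ[X] →+* RatFunc ℚ) (hφ : φ X = RatFunc.X) (hr : (0 : ℤ) < r)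
    (he : (0 : ℤ) < e) (hd : 2 * (d : ℤ) = e * (r * r)) (g1 : Good ((RatFunc.X : RatFunc ℚ) ^ d))
    (g2 : Good ((RatFunc.X : RatFunc ℚ) ^ e))
    (hst : Step (RatFunc.X : RatFunc ℚ) (RatFunc.X ^ d) (RatFunc.X ^ e) d e r) (m : ℕ) :
    ∀ J : (Fin (m + 1) → ℕ) → RatFunc ℚ, SolZ RatFunc.X (RatFunc.X ^ d) (RatFunc.X ^ e) d e r J →
      ∀ a, PZ (RatFunc.X ^ d) (RatFunc.X ^ e) a ^ 2 * J a = φ (num d e r m a) := by
  have hF := fk_of good_X hr hd (zpow_natCast _ _).symm (zpow_natCast _ _).symm hst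
  induction m with
  | zero =>
    intro J hJ a
    rw [giv_base good_X hr he hd (zpow_natCast _ _).symm (zpow_natCast _ _).symm g1 g2 hF hJ a,
      num, map_one]
  | succ m ih =>
    intro J hJ a
    rw [giv_step good_X hr he hd (zpow_natCast _ _).symm (zpow_natCast _ _).symm g1 g2 hF hJ a,
      num, map_sum]
    refine Finset.sum_congr rfl fun b _ => ?_
    have h2 : 0 ≤ HV d e r (cz b) := by
      by_cases hu0 : cz b = 0
      · rw [hu0, HV_zero]
      · exact (HV_pos hr he hd (fun i => Int.natCast_nonneg _) hu0).le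
    rw [ih _ hJ.res b, map_mul, map_mul, map_pow, hφ, ← Int.toNat_of_nonneg h2, zpow_natCast]
    congr 2
    simp only [coef, map_mul, map_pow, map_prod, binom_ev, hφ]
    rfl

/-- Types `B_{m+1}` (`d = 1, e = 2, r = 1`) and `C_{m+1}` (`d = 2, e = 1, r = 2`): the numerator
`(q)_a² 𝔍_a` is the polynomial `num d e r m a`. -/
theorem result (d e r : ℕ) (h : (d = 1 ∧ e = 2 ∧ r = 1) ∨ (d = 2 ∧ e = 1 ∧ r = 2)) (m : ℕ)
    (J : (Fin (m + 1) → ℕ) → RatFunc ℚ) (h0 : J 0 = 1)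
    (hJ : ∀ a, J a = ∑ c ∈ Finset.Iic a,
      RatFunc.X ^ halfNorm d e r c / qPoch d e (a - c) * J c) (a : Fin (m + 1) → ℕ) :
    qPoch d e a ^ 2 * J a =
      algebraMap ℚ[X] (RatFunc ℚ) ((num d e r m a).map (Nat.castRingHom ℚ)) := by
  let φ : ℕ[X] →+* RatFunc ℚ :=
    (algebraMap ℚ[X] (RatFunc ℚ)).comp (Polynomial.mapRingHom (Nat.castRingHom ℚ))
  have hφ : φ X = RatFunc.X := by simp [φ]
  have g1 : Good ((RatFunc.X : RatFunc ℚ) ^ 1) := by rw [pow_one]; exact good_X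
  have g2 := good_sq good_X
  have ep : ∀ a : Fin (m + 1) → ℕ, qPoch d e a = PZ (RatFunc.X ^ d) (RatFunc.X ^ e) a := fun a => by
    simp only [qPoch, PZ, prod_Icc_eq]
  have sol : (0 : ℤ) < r → (0 : ℤ) < e → 2 * (d : ℤ) = e * (r * r) →
      SolZ RatFunc.X (RatFunc.X ^ d) (RatFunc.X ^ e) d e r J := fun hr he hd => ⟨h0, fun a => by
    rw [hJ a]
    refine Finset.sum_congr rfl fun c _ => ?_
    have h2 : 0 ≤ HV d e r (cz c) := by
      by_cases hu0 : cz c = 0
      · rw [hu0, HV_zero]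
      · exact (HV_pos hr he hd (fun i => Int.natCast_nonneg _) hu0).le
    rw [ep, ← Int.toNat_of_nonneg h2, zpow_natCast]
    rfl⟩
  rw [ep]
  rcases h with ⟨rfl, rfl, rfl⟩ | ⟨rfl, rfl, rfl⟩
  · exact formula φ hφ (by norm_num) (by norm_num) (by norm_num) g1 g2
      (by rw [pow_one]; exact step_B good_X) m J (sol (by norm_num) (by norm_num) (by norm_num)) a
  · exact formula φ hφ (by norm_num) (by norm_num) (by norm_num) g2 g1
      (by rw [pow_one]; exact step_C good_X) m J (sol (by norm_num) (by norm_num) (by norm_num)) a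

end Pool.Agent.Results.MP_4223bd_al.FormulaBC
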