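import Pool.Agent.FS.TodaBC.Simple
import Pool.Agent.Lib.MP_4223bd_al.E8

set_option autoImplicit false

open Polynomial

namespace Pool.Agent.Results.MP_4223bd_al.Nonnegative

section Defs

variable {ι : Type} [Fintype ι] [DecidableEq ι]

/-- `M` is the Gram matrix of the simple roots of a simple root system of rank `n`, normalised so
that short roots have square length 2: the Cartan matrix `2 (α_i,α_j) / (α_j,α_j)` times the
diagonal matrix of the numbers `d_j = (α_j,α_j) / 2`. -/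
def IsSimpleGram (n : ℕ) (M : Matrix (Fin n) (Fin n) ℤ) : Prop :=
  M = CartanMatrix.A n ∨
    (2 ≤ n ∧ M = CartanMatrix.B n * Matrix.diagonal fun i => if i.val + 1 = n then 1 else 2) ∨
    (2 ≤ n ∧ M = CartanMatrix.C n * Matrix.diagonal fun i => if i.val + 1 = n then 2 else 1) ∨
    (4 ≤ n ∧ M = CartanMatrix.D n) ∨
    (∃ h : n = 6, M = CartanMatrix.E₆.submatrix (Fin.cast h) (Fin.cast h)) ∨
    (∃ h : n = 7, M = CartanMatrix.E₇.submatrix (Fin.cast h) (Fin.cast h)) ∨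
    (∃ h : n = 8, M = CartanMatrix.E₈.submatrix (Fin.cast h) (Fin.cast h)) ∨
    (∃ h : n = 4, M = (CartanMatrix.F₄ * Matrix.diagonal ![2, 2, 1, 1]).submatrix
      (Fin.cast h) (Fin.cast h)) ∨
    (∃ h : n = 2, M = (CartanMatrix.G₂ * Matrix.diagonal ![3, 1]).submatrix
      (Fin.cast h) (Fin.cast h))

/-- `G` is, after renumbering the simple roots, a block diagonal sum of such matrices: the Gram
matrix of the simple roots of a split semisimple Lie algebra. -/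
def IsGram (G : Matrix ι ι ℤ) : Prop :=
  ∃ (r : ℕ) (n : Fin r → ℕ) (M : ∀ s, Matrix (Fin (n s)) (Fin (n s)) ℤ)
    (e : ι ≃ Σ s : Fin r, Fin (n s)),
    (∀ s, IsSimpleGram (n s) (M s)) ∧ ∀ i j, G i j = Matrix.blockDiagonal' M (e i) (e j)

/-- For `a` in the positive cone (given by its coefficients on the simple roots),
the number (a,a)/2. -/
def halfNorm (G : Matrix ι ι ℤ) (a : ι → ℕ) : ℕ :=
  ((∑ i, ∑ j, (a i : ℤ) * G i j * (a j : ℤ)) / 2).toNat

/-- (q)_a = ∏_i ∏_{j=1}^{a_i} (1 - q^{d_i j}) with d_i = (α_i,α_i)/2. -/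
noncomputable def qPoch (G : Matrix ι ι ℤ) (a : ι → ℕ) : RatFunc ℚ :=
  ∏ i, ∏ j ∈ Finset.Icc 1 (a i), (1 - RatFunc.X ^ ((G i i / 2).toNat * j))

/-- `J` is the family of rational functions of the problem: `J 0 = 1` and
`J a = ∑_{0 ≤ c ≤ a} q^{(c,c)/2} / (q)_{a-c} * J c`. -/
def IsJ (G : Matrix ι ι ℤ) (J : (ι → ℕ) → RatFunc ℚ) : Prop :=
  J 0 = 1 ∧
    ∀ a, J a = ∑ c ∈ Finset.Iic a, RatFunc.X ^ halfNorm G c / qPoch G (a - c) * J c

end Defs

open Pool.Agent.Lib.MP_4223bd_al Pool.Agent.FS.TodaBC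

lemma pos_simple {n : ℕ} {M : Matrix (Fin n) (Fin n) ℤ} (h : IsSimpleGram n M) :
    PosN (RatFunc.X : RatFunc ℚ) ph.rangeS M := by
  rcases h with rfl | ⟨hn, rfl⟩ | ⟨hn, rfl⟩ | ⟨hn, rfl⟩ | ⟨rfl, rfl⟩ | ⟨rfl, rfl⟩ | ⟨rfl, rfl⟩ |
    ⟨rfl, rfl⟩ | ⟨rfl, rfl⟩
  · exact PosN.of_nice gdX ph ph_X (fun i => by simp [CartanMatrix.A]) (nice_A gdX n)
  · exact posB n hn
  · exact posC n hn
  · exact PosN.of_nice gdX ph ph_X (fun i => by simp [CartanMatrix.D]) (nice_D gdX n hn)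
  · exact PosN.of_nice gdX ph ph_X (by decide) (nice_E6 gdX evInj)
  · exact PosN.of_nice gdX ph ph_X (by decide) (nice_E7 gdX evInj)
  · exact PosN.of_nice gdX ph ph_X (by decide) (nice_E8 gdX evInj)
  · exact typeF _ (by decide)
  · exact typeG _ (by decide)

/-- For every split semisimple type, every numerator `(q)_α² 𝔍_α` is a polynomial with natural
number coefficients. -/
theorem result {ι : Type} [Fintype ι] [DecidableEq ι] (G : Matrix ι ι ℤ) (hG : IsGram G)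
    (J : (ι → ℕ) → RatFunc ℚ) (hJ : IsJ G J) (a : ι → ℕ) :
    ∃ p : ℕ[X], algebraMap ℚ[X] (RatFunc ℚ) (p.map (Nat.castRingHom ℚ)) = qPoch G a ^ 2 * J a := by
  obtain ⟨r, n, M, e, h1, h2⟩ := hG
  have hp : ∀ a, qPoch G a = PK RatFunc.X (dN G) a := fun a => by
    simp only [qPoch, PK, dN, prodIcc]
  obtain ⟨h0, hJ⟩ := hJ
  simp only [hp] at hJ ⊢
  exact PosN.sigma gdX M (fun s => pos_simple (h1 s)) G e h2 J ⟨h0, hJ⟩ a

end Pool.Agent.Results.MP_4223bd_al.Nonnegative
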