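import Mathlib

set_option autoImplicit false

open Polynomial

namespace Pool.Agent.Results.MP_4223bd_al.NotUnimodal

section Defs

variable {ι M N : Type} [DecidableEq ι] [AddCommGroup M] [Module ℚ M] [AddCommGroup N] [Module ℚ N]
  {P : RootPairing ι ℚ M N}

/-- For `a` in the positive cone `Q^{≥0}` (given by its coefficients on the simple roots),
the number `(a,a)/2`. -/
noncomputable def halfNorm (b : P.Base) (B : P.InvariantForm) (a : b.support → ℕ) : ℕ :=
  ⌊B.form (∑ i, a i • P.root i) (∑ i, a i • P.root i) / 2⌋₊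

/-- The number `d_i = (α_i,α_i)/2`. -/
noncomputable def dd (B : P.InvariantForm) (i : ι) : ℕ :=
  ⌊B.form (P.root i) (P.root i) / 2⌋₊

/-- `(q)_a = ∏_i ∏_{j=1}^{a_i} (1 - q^{d_i j})`. -/
noncomputable def qPoch (b : P.Base) (B : P.InvariantForm) (a : b.support → ℕ) : RatFunc ℚ :=
  ∏ i : b.support, ∏ j ∈ Finset.Icc 1 (a i), (1 - RatFunc.X ^ (dd B i * j))

/-- `J` is the family of rational functions of the problem: `J 0 = 1` and
`J a = ∑_{0 ≤ c ≤ a} q^{(c,c)/2} / (q)_{a-c} * J c`. -/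
def IsJ (b : P.Base) (B : P.InvariantForm) (J : (b.support → ℕ) → RatFunc ℚ) : Prop :=
  J 0 = 1 ∧
    ∀ a, J a = ∑ c ∈ Finset.Iic a, RatFunc.X ^ halfNorm b B c / qPoch b B (a - c) * J c

/-- The coefficient sequence `c_0, ..., c_D` increases weakly up to some index `m`
and decreases weakly afterwards. -/
def Unimodal (p : ℚ[X]) : Prop :=
  ∃ m ≤ p.natDegree, (∀ k < m, p.coeff k ≤ p.coeff (k + 1)) ∧
    ∀ k, m ≤ k → k < p.natDegree → p.coeff (k + 1) ≤ p.coeff k

end Defs

section Exist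

variable {ι M N : Type} [DecidableEq ι] [AddCommGroup M] [Module ℚ M] [AddCommGroup N] [Module ℚ N]
  {P : RootPairing ι ℚ M N}

lemma one_sub_X_pow_ne_zero {k : ℕ} (hk : k ≠ 0) : (1 - RatFunc.X ^ k : RatFunc ℚ) ≠ 0 := by
  intro h
  have h1 : (algebraMap ℚ[X] (RatFunc ℚ)) (1 - X ^ k) = 0 := by
    simpa using h
  have h2 : (1 - X ^ k : ℚ[X]) = 0 := (RatFunc.algebraMap_injective ℚ) (by simpa using h1)
  have h3 := congrArg (fun p : ℚ[X] => p.coeff 0) h2
  simp [Polynomial.coeff_X_pow, hk.symm] at h3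

noncomputable def Jrec (b : P.Base) (B : P.InvariantForm) (a : b.support → ℕ) : RatFunc ℚ :=
  if a = 0 then 1 else
    (∑ c ∈ (Finset.Iio a).attach,
      RatFunc.X ^ halfNorm b B c.1 / qPoch b B (a - c.1) * Jrec b B c.1) /
      (1 - RatFunc.X ^ halfNorm b B a)
termination_by ∑ i, a i
decreasing_by
  have h := Finset.mem_Iio.mp c.2
  obtain ⟨h1, i, hi⟩ := Pi.lt_def.mp h
  exact Finset.sum_lt_sum (fun j _ => h1 j) ⟨i, Finset.mem_univ _, hi⟩

lemma exists_J (b : P.Base) (B : P.InvariantForm) (h : ∀ a, a ≠ 0 → halfNorm b B a ≠ 0) :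
    ∃ J, IsJ b B J := by
  refine ⟨Jrec b B, by rw [Jrec]; simp, fun a => ?_⟩
  have hq : qPoch b B 0 = 1 := by simp [qPoch]
  by_cases ha : a = 0
  · subst ha
    have : Finset.Iic (0 : b.support → ℕ) = {0} := by
      ext c; simp
    rw [this]
    simp [hq, halfNorm]
  · rw [← Finset.Iio_insert, Finset.sum_insert (by simp)]
    have hne := one_sub_X_pow_ne_zero (h a ha)
    have e : Jrec b B a * (1 - RatFunc.X ^ halfNorm b B a) =
        ∑ c ∈ Finset.Iio a, RatFunc.X ^ halfNorm b B c / qPoch b B (a - c) * Jrec b B c := by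
      conv_lhs => rw [Jrec]
      rw [if_neg ha, div_mul_cancel₀ _ hne]
      exact Finset.sum_attach (Finset.Iio a)
        (fun c => RatFunc.X ^ halfNorm b B c / qPoch b B (a - c) * Jrec b B c)
    rw [← e, tsub_self, hq]
    ring

end Exist

section B2

def rt : Fin 8 → Fin 2 → ℚ :=
  ![![1, -1], ![0, 2], ![1, 1], ![2, 0], ![-1, 1], ![0, -2], ![-1, -1], ![-2, 0]]

def crt : Fin 8 → Fin 2 → ℚ :=
  ![![1, -1], ![0, 1], ![1, 1], ![1, 0], ![-1, 1], ![0, -1], ![-1, -1], ![-1, 0]]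

lemma rt_inj : Function.Injective rt := by decide +kernel

lemma crt_inj : Function.Injective crt := by decide +kernel

lemma key1 : ∀ i j : Fin 8, ∃ k, rt k = rt j - (rt j ⬝ᵥ crt i) • rt i := by decide +kernel

lemma key2 : ∀ i j : Fin 8, ∃ k, crt k = crt j - (rt i ⬝ᵥ crt j) • crt i := by decide +kernel

lemma dot_inj : Function.Injective
    (dotProductBilin ℚ ℚ : (Fin 2 → ℚ) →ₗ[ℚ] (Fin 2 → ℚ) →ₗ[ℚ] ℚ) := by
  intro x y h
  ext i
  have := LinearMap.congr_fun h (Pi.single i 1)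
  simpa using this

instance dotPerf :
    (dotProductBilin ℚ ℚ : (Fin 2 → ℚ) →ₗ[ℚ] (Fin 2 → ℚ) →ₗ[ℚ] ℚ).IsPerfPair := by
  apply LinearMap.IsPerfPair.of_injective dot_inj
  intro x y h
  ext i
  have := LinearMap.congr_fun h (Pi.single i 1)
  simpa using this

noncomputable def PB : RootPairing (Fin 8) ℚ (Fin 2 → ℚ) (Fin 2 → ℚ) :=
  RootPairing.mk' (dotProductBilin ℚ ℚ) ⟨rt, rt_inj⟩ ⟨crt, crt_inj⟩
    (by
      have : ∀ i : Fin 8, rt i ⬝ᵥ crt i = 2 := by decide +kernel
      intro i; simpa using this i)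
    (by
      rintro i _ ⟨j, rfl⟩
      obtain ⟨k, hk⟩ := key1 i j
      exact ⟨k, by simpa [Module.preReflection_apply] using hk⟩)
    (by
      rintro i _ ⟨j, rfl⟩
      obtain ⟨k, hk⟩ := key2 i j
      exact ⟨k, by simpa [Module.preReflection_apply] using hk⟩)

@[simp] lemma PB_root (i : Fin 8) : PB.root i = rt i := rfl
@[simp] lemma PB_coroot (i : Fin 8) : PB.coroot i = crt i := rfl
lemma PB_pairing (i j : Fin 8) : PB.pairing i j = rt i ⬝ᵥ crt j := rfl
lemma PB_coroot' (i : Fin 8) (x : Fin 2 → ℚ) : PB.coroot' i x = x ⬝ᵥ crt i := rfl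

lemma span_top (f : Fin 8 → Fin 2 → ℚ) (h0 : f 0 = ![1, -1]) (h2 : f 2 = ![1, 1]) :
    Submodule.span ℚ (Set.range f) = ⊤ := by
  rw [eq_top_iff]
  intro x _
  have : x = ((x 0 - x 1) / 2) • f 0 + ((x 0 + x 1) / 2) • f 2 := by
    rw [h0, h2]
    ext i; fin_cases i <;> simp <;> ring
  rw [this]
  exact Submodule.add_mem _ (Submodule.smul_mem _ _ (Submodule.subset_span ⟨0, rfl⟩))
    (Submodule.smul_mem _ _ (Submodule.subset_span ⟨2, rfl⟩))

instance : PB.IsRootSystem where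
  span_root_eq_top := span_top rt rfl rfl
  span_coroot_eq_top := span_top crt rfl rfl

instance : PB.IsCrystallographic where
  exists_value i j := by
    have : ∀ i j : Fin 8, ∃ z ∈ ([-2, -1, 0, 1, 2] : List ℤ), (z : ℚ) = rt i ⬝ᵥ crt j := by
      decide +kernel
    obtain ⟨z, -, hz⟩ := this i j
    exact ⟨z, by simpa [PB_pairing] using hz⟩

instance : PB.IsReduced where
  eq_or_eq_neg i j h := by
    have : ∀ i j : Fin 8, rt i 0 * rt j 1 - rt i 1 * rt j 0 = 0 → rt i = rt j ∨ rt i = - rt j := by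
      decide +kernel
    apply this
    by_contra hd
    apply h
    rw [LinearIndependent.pair_iff]
    intro s t hst
    have e0 := congrFun hst 0
    have e1 := congrFun hst 1
    simp only [PB_root, Pi.add_apply, Pi.smul_apply, smul_eq_mul, Pi.zero_apply] at e0 e1
    constructor
    · have : s * (rt i 0 * rt j 1 - rt i 1 * rt j 0) = 0 := by
        linear_combination rt j 1 * e0 - rt j 0 * e1
      exact (mul_eq_zero.mp this).resolve_right hd
    · have : t * (rt i 0 * rt j 1 - rt i 1 * rt j 0) = 0 := by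
        linear_combination rt i 0 * e1 - rt i 1 * e0
      exact (mul_eq_zero.mp this).resolve_right hd

instance : PB.IsIrreducible := by
  apply RootPairing.IsIrreducible.mk'
  intro q hq hne
  obtain ⟨x, hx, hx0⟩ := (Submodule.ne_bot_iff q).mp hne
  have hr : ∀ i, ∀ y ∈ q, y - (y ⬝ᵥ crt i) • rt i ∈ q := by
    intro i y hy
    have := hq i hy
    exact this
  have hs : ∀ i, ∀ y ∈ q, y ⬝ᵥ crt i ≠ 0 → rt i ∈ q := by
    intro i y hy h
    have h1 : (y ⬝ᵥ crt i) • rt i ∈ q := by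
      have := q.sub_mem hy (hr i y hy)
      simpa using this
    exact (Submodule.smul_mem_iff q h).mp h1
  have h13 : rt 1 ∈ q ∨ rt 3 ∈ q := by
    by_cases h0 : x 0 = 0
    · left
      apply hs 1 x hx
      intro h
      apply hx0
      ext i
      fin_cases i
      · simpa using h0
      · simpa [crt, dotProduct, Fin.sum_univ_two] using h
    · right
      apply hs 3 x hx
      simpa [crt, dotProduct, Fin.sum_univ_two] using h0
  have h02 : rt 0 ∈ q ∧ rt 2 ∈ q := by
    rcases h13 with h | h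
    · exact ⟨hs 0 _ h (by decide +kernel), hs 2 _ h (by decide +kernel)⟩
    · exact ⟨hs 0 _ h (by decide +kernel), hs 2 _ h (by decide +kernel)⟩
  rw [eq_top_iff]
  intro y _
  have : y = ((y 0 - y 1) / 2) • rt 0 + ((y 0 + y 1) / 2) • rt 2 := by
    ext i; fin_cases i <;> simp [rt] <;> ring
  rw [this]
  exact q.add_mem (q.smul_mem _ h02.1) (q.smul_mem _ h02.2)

lemma li (f : Fin 8 → Fin 2 → ℚ) (h : f 0 0 * f 1 1 - f 0 1 * f 1 0 ≠ 0) :
    LinearIndepOn ℚ f (({0, 1} : Finset (Fin 8)) : Set (Fin 8)) := by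
  have : (({0, 1} : Finset (Fin 8)) : Set (Fin 8)) = {0, 1} := by simp
  rw [this, LinearIndepOn.pair_iff f (by decide)]
  intro s t hst
  have e0 := congrFun hst 0
  have e1 := congrFun hst 1
  simp only [Pi.add_apply, Pi.smul_apply, smul_eq_mul, Pi.zero_apply] at e0 e1
  constructor
  · have : s * (f 0 0 * f 1 1 - f 0 1 * f 1 0) = 0 := by
      linear_combination f 1 1 * e0 - f 1 0 * e1
    exact (mul_eq_zero.mp this).resolve_right h
  · have : t * (f 0 0 * f 1 1 - f 0 1 * f 1 0) = 0 := by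
      linear_combination f 0 0 * e1 - f 0 1 * e0
    exact (mul_eq_zero.mp this).resolve_right h

lemma memcl (f : Fin 8 → Fin 2 → ℚ)
    (h : ∀ i, ∃ u v : Fin 3, f i = (u : ℕ) • f 0 + (v : ℕ) • f 1 ∨
      - f i = (u : ℕ) • f 0 + (v : ℕ) • f 1) (i : Fin 8) :
    f i ∈ AddSubmonoid.closure (f '' (({0, 1} : Finset (Fin 8)) : Set (Fin 8))) ∨
      - f i ∈ AddSubmonoid.closure (f '' (({0, 1} : Finset (Fin 8)) : Set (Fin 8))) := by
  obtain ⟨u, v, h⟩ := h i
  have : (u : ℕ) • f 0 + (v : ℕ) • f 1 ∈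
      AddSubmonoid.closure (f '' (({0, 1} : Finset (Fin 8)) : Set (Fin 8))) :=
    add_mem (nsmul_mem (AddSubmonoid.subset_closure (Set.mem_image_of_mem f (by simp))) _)
      (nsmul_mem (AddSubmonoid.subset_closure (Set.mem_image_of_mem f (by simp))) _)
  rcases h with h | h
  · left; rw [h]; exact this
  · right; rw [h]; exact this

noncomputable def bB : PB.Base where
  support := {0, 1}
  linearIndepOn_root := li rt (by decide +kernel)
  linearIndepOn_coroot := li crt (by decide +kernel)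
  root_mem_or_neg_mem := memcl rt (by decide +kernel)
  coroot_mem_or_neg_mem := memcl crt (by decide +kernel)

noncomputable def fB : PB.InvariantForm where
  form := dotProductBilin ℚ ℚ
  symm := ⟨fun x y => by simp [dotProduct_comm]⟩
  ne_zero i := by
    have : ∀ i : Fin 8, rt i ⬝ᵥ rt i ≠ 0 := by decide +kernel
    simpa using this i
  isOrthogonal_reflection i x y := by
    simp only [RootPairing.reflection_apply, PB_coroot', PB_root, LinearEquiv.coe_coe,
      dotProductBilin_apply_apply]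
    fin_cases i <;> simp [rt, crt, dotProduct, Fin.sum_univ_two] <;> ring

def s0 : bB.support := ⟨0, by decide⟩
def s1 : bB.support := ⟨1, by decide⟩

lemma univ_supp : (Finset.univ : Finset bB.support) = {s0, s1} := by
  ext ⟨i, hi⟩
  have : i = 0 ∨ i = 1 := by simpa [bB] using hi
  rcases this with rfl | rfl <;> simp [s0, s1]

lemma s01 : s0 ≠ s1 := by decide

def vec (x y : ℕ) : bB.support → ℕ := fun i => if i = s0 then x else y

@[simp] lemma vec0 (x y : ℕ) : vec x y s0 = x := by simp [vec]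
@[simp] lemma vec1 (x y : ℕ) : vec x y s1 = y := by simp [vec, s01.symm]

lemma cases_supp (i : bB.support) : i = s0 ∨ i = s1 := by
  have : i ∈ ({s0, s1} : Finset bB.support) := univ_supp ▸ Finset.mem_univ i
  simpa using this

lemma eq_vec (a : bB.support → ℕ) : a = vec (a s0) (a s1) := by
  ext i
  rcases cases_supp i with rfl | rfl <;> simp

lemma halfNorm_vec (x y : ℕ) : halfNorm bB fB (vec x y) = (x - y) ^ 2 + (y - x) ^ 2 + y ^ 2 := by
  have h : fB.form (∑ i, vec x y i • PB.root i) (∑ i, vec x y i • PB.root i) / 2 =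
      (((x - y) ^ 2 + (y - x) ^ 2 + y ^ 2 : ℕ) : ℚ) := by
    rw [univ_supp, Finset.sum_pair s01]
    simp only [vec0, vec1]
    have e0 : PB.root s0 = ![1, -1] := rfl
    have e1 : PB.root s1 = ![0, 2] := rfl
    rw [e0, e1]
    simp only [fB, dotProductBilin_apply_apply]
    rcases le_total x y with h | h
    · have : x - y = 0 := by omega
      simp [dotProduct, Fin.sum_univ_two, this, Nat.cast_sub h]
      ring
    · have : y - x = 0 := by omega
      simp [dotProduct, Fin.sum_univ_two, this, Nat.cast_sub h]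
      ring
  rw [halfNorm, h, Nat.floor_natCast]

lemma dd0 : dd fB (s0 : Fin 8) = 1 := by
  have : fB.form (PB.root s0) (PB.root s0) / 2 = ((1 : ℕ) : ℚ) := by
    have e0 : PB.root s0 = ![1, -1] := rfl
    rw [e0]; simp [fB, dotProduct, Fin.sum_univ_two]
  rw [dd, this, Nat.floor_natCast]

lemma dd1 : dd fB (s1 : Fin 8) = 2 := by
  have : fB.form (PB.root s1) (PB.root s1) / 2 = ((2 : ℕ) : ℚ) := by
    have e0 : PB.root s1 = ![0, 2] := rfl
    rw [e0]; simp [fB, dotProduct, Fin.sum_univ_two]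
  rw [dd, this, Nat.floor_natCast]

lemma qPoch_vec (x y : ℕ) : qPoch bB fB (vec x y) =
    (∏ j ∈ Finset.Icc 1 x, (1 - RatFunc.X ^ j)) *
      ∏ j ∈ Finset.Icc 1 y, (1 - RatFunc.X ^ (2 * j)) := by
  rw [qPoch, univ_supp, Finset.prod_pair s01]
  simp [dd0, dd1]

lemma vec_sub (x y u v : ℕ) : vec x y - vec u v = vec (x - u) (y - v) := by
  ext i
  rcases cases_supp i with rfl | rfl <;> simp

lemma sum_Iic (x y : ℕ) (f : (bB.support → ℕ) → RatFunc ℚ) :
    ∑ c ∈ Finset.Iic (vec x y), f c =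
      ∑ u ∈ Finset.range (x + 1), ∑ v ∈ Finset.range (y + 1), f (vec u v) := by
  rw [← Finset.sum_product']
  symm
  apply Finset.sum_bij (fun p _ => vec p.1 p.2)
  · rintro ⟨u, v⟩ h
    simp only [Finset.mem_product, Finset.mem_range] at h
    rw [Finset.mem_Iic]
    intro i
    rcases cases_supp i with rfl | rfl <;> simp <;> omega
  · rintro ⟨u, v⟩ _ ⟨u', v'⟩ _ h
    have h0 := congrFun h s0
    have h1 := congrFun h s1
    simp at h0 h1
    simp [h0, h1]
  · intro c hc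
    rw [Finset.mem_Iic] at hc
    have h0 := hc s0
    have h1 := hc s1
    simp at h0 h1
    exact ⟨(c s0, c s1), by simp; omega, (eq_vec c).symm⟩
  · intros; rfl

lemma J22 (J : (bB.support → ℕ) → RatFunc ℚ) (hJ : IsJ bB fB J) :
    qPoch bB fB (vec 2 2) ^ 2 * J (vec 2 2) =
      1 + RatFunc.X + 3 * RatFunc.X ^ 2 + 2 * RatFunc.X ^ 3 + 5 * RatFunc.X ^ 4 +
        2 * RatFunc.X ^ 5 + 3 * RatFunc.X ^ 6 + RatFunc.X ^ 7 + RatFunc.X ^ 8 := by
  obtain ⟨h0, hr⟩ := hJ
  have h00 : J (vec 0 0) = 1 := by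
    have : vec 0 0 = 0 := by ext i; simp [vec]
    rw [this, h0]
  have R := fun x y => (hr (vec x y)).trans (sum_Iic x y _)
  simp only [vec_sub, halfNorm_vec, qPoch_vec] at R
  have n1 := one_sub_X_pow_ne_zero (k := 1) (by norm_num)
  have n2 := one_sub_X_pow_ne_zero (k := 2) (by norm_num)
  have n4 := one_sub_X_pow_ne_zero (k := 4) (by norm_num)
  have n5 := one_sub_X_pow_ne_zero (k := 5) (by norm_num)
  have n8 := one_sub_X_pow_ne_zero (k := 8) (by norm_num)
  rw [qPoch_vec]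
  have r10 := R 1 0
  have r01 := R 0 1
  have r11 := R 1 1
  have r20 := R 2 0
  have r02 := R 0 2
  have r21 := R 2 1
  have r12 := R 1 2
  have r22 := R 2 2
  clear R hr
  have i1 : Finset.Icc 1 1 = ({1} : Finset ℕ) := rfl
  have i2 : Finset.Icc 1 2 = ({1, 2} : Finset ℕ) := rfl
  have i0 : Finset.Icc 1 0 = (∅ : Finset ℕ) := rfl
  simp only [Finset.sum_range_succ, Finset.range_zero, Finset.sum_empty, zero_add, h00,
    Nat.reduceSub, Nat.sub_self, Nat.sub_zero, Nat.zero_sub, Nat.reducePow, Nat.reduceAdd,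
    Nat.reduceMul, i0, i1, i2, Finset.prod_empty, Finset.prod_singleton,
    Finset.prod_pair (show (1 : ℕ) ≠ 2 by norm_num), pow_zero, pow_one, mul_one, one_mul,
    div_one] at r10 r01 r11 r20 r02 r21 r12 r22 n1 ⊢
  generalize RatFunc.X (K := ℚ) = q at *
  have e10 : J (vec 1 0) = 1 / (1 - q) ^ 2 := by
    apply mul_right_cancel₀ n1
    rw [show J (vec 1 0) * (1 - q) = 1 / (1 - q) by linear_combination r10]
    field_simp
  have e01 : J (vec 0 1) = 1 / (1 - q ^ 2) ^ 2 := by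
    apply mul_right_cancel₀ n2
    rw [show J (vec 0 1) * (1 - q ^ 2) = 1 / (1 - q ^ 2) by linear_combination r01]
    field_simp
  rw [e10] at r11 r20 r21 r12 r22
  rw [e01] at r11 r02 r21 r12 r22
  have f2 : (1 - q ^ 2) = (1 - q) * (1 + q) := by ring
  have f4 : (1 - q ^ 4) = (1 - q) * (1 + q) * (1 + q ^ 2) := by ring
  have m1 : (1 + q) ≠ 0 := fun h => n2 (by rw [f2, h]; ring)
  have m2 : (1 + q ^ 2) ≠ 0 := fun h => n4 (by rw [f4, h]; ring)
  have slv : ∀ (K A T c : RatFunc ℚ), 1 - c ≠ 0 → K = A + c * K → T * (1 - c) = A → K = T := by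
    intro K A T c hc h1 h2
    apply mul_right_cancel₀ hc
    linear_combination h1 - h2
  have e11 : J (vec 1 1) = (1 + q + q ^ 2) / ((1 - q) * (1 - q ^ 2)) ^ 2 := by
    apply slv _ _ _ _ n1 (r11.trans (add_assoc _ _ _).symm)
    rw [f2]; field_simp; ring
  have e20 : J (vec 2 0) = 1 / ((1 - q) * (1 - q ^ 2)) ^ 2 := by
    apply slv _ _ _ _ n4 r20
    rw [f4, f2]; field_simp; ring
  have e02 : J (vec 0 2) = 1 / ((1 - q ^ 2) * (1 - q ^ 4)) ^ 2 := by
    apply slv _ _ _ _ n8 r02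
    rw [f4, f2]; field_simp; ring
  rw [e11] at r21 r12 r22
  rw [e20] at r21 r22
  rw [e02] at r12 r22
  have e21 : J (vec 2 1) = (1 + q + 3 * q ^ 2 + q ^ 3 + q ^ 4) /
      ((1 - q) * (1 - q ^ 2) * (1 - q ^ 2)) ^ 2 := by
    apply slv _ _ _ _ n2 (r21.trans (add_assoc _ _ _).symm)
    rw [f2]; field_simp; ring
  have e12 : J (vec 1 2) = (1 + q + q ^ 2 + q ^ 3 + q ^ 4) /
      ((1 - q) * ((1 - q ^ 2) * (1 - q ^ 4))) ^ 2 := by
    apply slv _ _ _ _ n5 (r12.trans (add_assoc _ _ _).symm)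
    rw [f4, f2]; field_simp; ring
  rw [e21, e12] at r22
  have e22 : J (vec 2 2) = (1 + q + 3 * q ^ 2 + 2 * q ^ 3 + 5 * q ^ 4 + 2 * q ^ 5 + 3 * q ^ 6 +
      q ^ 7 + q ^ 8) / ((1 - q) * (1 - q ^ 2) * ((1 - q ^ 2) * (1 - q ^ 4))) ^ 2 := by
    apply slv _ _ _ _ n4 (r22.trans (add_assoc _ _ _).symm)
    rw [f4, f2]; field_simp; ring
  rw [e22]
  field_simp

end B2

theorem result :
    ¬ ∀ (ι M N : Type) [Finite ι] [DecidableEq ι] [AddCommGroup M] [Module ℚ M]
        [AddCommGroup N] [Module ℚ N] (P : RootPairing ι ℚ M N) [P.IsRootSystem] [P.IsReduced]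
        [P.IsCrystallographic] [P.IsIrreducible] (b : P.Base) (B : P.InvariantForm),
        (∀ i, 2 ≤ B.form (P.root i) (P.root i)) → (∃ i, B.form (P.root i) (P.root i) = 2) →
        ∀ J : (b.support → ℕ) → RatFunc ℚ, IsJ b B J →
        ∀ (a : b.support → ℕ) (p : ℚ[X]),
          algebraMap ℚ[X] (RatFunc ℚ) p = qPoch b B a ^ 2 * J a → Unimodal p := by
  intro h
  obtain ⟨J, hJ⟩ := exists_J bB fB (by
    intro a ha
    rw [eq_vec a, halfNorm_vec]
    intro h0
    apply ha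
    have h1 : a s0 - a s1 = 0 := by
      have : (a s0 - a s1) ^ 2 = 0 := by omega
      exact pow_eq_zero_iff (by norm_num) |>.mp this
    have h2 : a s1 = 0 := by
      have : (a s1) ^ 2 = 0 := by omega
      exact pow_eq_zero_iff (by norm_num) |>.mp this
    rw [eq_vec a]
    ext i
    rcases cases_supp i with rfl | rfl <;> simp <;> omega)
  have hn : ∀ i : Fin 8, 2 ≤ rt i ⬝ᵥ rt i := by decide +kernel
  have := h (Fin 8) (Fin 2 → ℚ) (Fin 2 → ℚ) PB bB fB (fun i => by simpa [fB] using hn i)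
    ⟨0, by simp [fB, rt, dotProduct, Fin.sum_univ_two]; norm_num⟩ J hJ (vec 2 2)
    (1 + X + 3 * X ^ 2 + 2 * X ^ 3 + 5 * X ^ 4 + 2 * X ^ 5 + 3 * X ^ 6 + X ^ 7 + X ^ 8)
    (by rw [J22 J hJ]; simp [map_ofNat])
  obtain ⟨m, -, h1, h2⟩ := this
  have hd : (1 + X + 3 * X ^ 2 + 2 * X ^ 3 + 5 * X ^ 4 + 2 * X ^ 5 + 3 * X ^ 6 + X ^ 7 + X ^ 8 :
      ℚ[X]).natDegree = 8 := by compute_degree!
  rw [hd] at h2
  by_cases hm : m ≤ 3
  · have := h2 3 hm (by norm_num)
    simp [coeff_X_pow, coeff_one, coeff_X] at this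
    norm_num at this
  · have := h1 2 (by omega)
    simp [coeff_X_pow, coeff_one, coeff_X] at this
    norm_num at this

end Pool.Agent.Results.MP_4223bd_al.NotUnimodal
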